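import Mathlib

/-!
# A planar oriented graph of digirth five with large feedback vertex number

The digraph has twelve vertices and twenty arcs, digirth five, and every feedback vertex set
has at least three vertices, while `(2 * 12 + 20) / (3 * 5) < 3`.
-/

namespace Pool.Agent.Results.MP_fa4488_co.DigirthFive

/-! ## Definitions -/

section Defs

variable {V : Type}

/-- A digraph is given by its arc relation.  It is an oriented graph if it has no loops and no
pair of opposite arcs. -/
def IsOriented (A : V → V → Prop) : Prop :=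
  (∀ v, ¬ A v v) ∧ ∀ u v, A u v → ¬ A v u

/-- the underlying undirected graph -/
def underlying (A : V → V → Prop) : SimpleGraph V := SimpleGraph.fromRel A

/-- `G` has a crossing-free straight-line drawing in the plane: the vertices are distinct
points, the closed segment of an edge contains no vertex other than its ends, and the segments
of two different edges meet at most in a common end. (By Fáry's theorem this is equivalent to
planarity for finite simple graphs.) -/
def HasStraightLineDrawing (G : SimpleGraph V) : Prop :=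
  ∃ p : V → ℝ × ℝ, Function.Injective p ∧
    (∀ u v w : V, G.Adj u v → p w ∈ segment ℝ (p u) (p v) → w = u ∨ w = v) ∧
    (∀ u v x y : V, G.Adj u v → G.Adj x y → s(u, v) ≠ s(x, y) →
      ∀ q, q ∈ segment ℝ (p u) (p v) → q ∈ segment ℝ (p x) (p y) →
        ∃ w, (w = u ∨ w = v) ∧ (w = x ∨ w = y) ∧ q = p w)

/-- there is a directed cycle of length `l`: distinct vertices `c 0, ..., c (l - 1)` with an arc
from each one to the cyclically next one -/
def HasDirectedCycle (A : V → V → Prop) (l : ℕ) : Prop :=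
  1 ≤ l ∧ ∃ c : ZMod l → V, Function.Injective c ∧ ∀ i, A (c i) (c (i + 1))

/-- the digirth is `g`: `g` is the length of a shortest directed cycle -/
def HasDigirth (A : V → V → Prop) (g : ℕ) : Prop := IsLeast {l | HasDirectedCycle A l} g

/-- `S` is a feedback vertex set: after deleting `S` there is no directed closed walk
(equivalently, no directed cycle) left. -/
def IsFeedbackVertexSet (A : V → V → Prop) (S : Finset V) : Prop :=
  ∀ v, ¬ Relation.TransGen (fun a b => a ∉ S ∧ b ∉ S ∧ A a b) v v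

/-- the least number of vertices in a feedback vertex set -/
noncomputable def fvs (A : V → V → Prop) : ℕ :=
  sInf {k | ∃ S : Finset V, IsFeedbackVertexSet A S ∧ S.card = k}

/-- the number of arcs -/
noncomputable def numArcs (A : V → V → Prop) : ℕ := Nat.card {p : V × V // A p.1 p.2}

end Defs

/-! ## The digraph -/

/-- the twenty arcs -/
def arcs : Finset (Fin 12 × Fin 12) :=
  {(0, 7), (0, 9), (1, 8), (2, 1), (2, 6), (3, 1), (3, 2), (4, 2), (4, 9), (5, 7), (5, 11),
    (6, 5), (6, 11), (7, 3), (8, 0), (9, 2), (9, 5), (9, 7), (10, 4), (11, 10)}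

/-- the digraph -/
def D (u v : Fin 12) : Prop := (u, v) ∈ arcs

instance : DecidableRel D := fun u v => inferInstanceAs (Decidable ((u, v) ∈ arcs))

/-! ## Planarity -/

/-- coordinates of the vertices -/
def cx : Fin 12 → ℤ := ![5, 11, 9, 10, 3, 0, 2, 12, 9, 2, 7, 4]

/-- coordinates of the vertices -/
def cy : Fin 12 → ℤ := ![9, 8, 6, 0, 7, 10, 1, 12, 7, 9, 5, 4]

/-- orientation of a triple of vertices -/
def orient (a b c : Fin 12) : ℤ :=
  (cx b - cx a) * (cy c - cy a) - (cy b - cy a) * (cx c - cx a)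

/-- the drawing -/
def pos (v : Fin 12) : ℝ × ℝ := ((cx v : ℝ), (cy v : ℝ))

/-- orientation of two vertices and a point -/
def orR (a b : Fin 12) (q : ℝ × ℝ) : ℝ :=
  ((cx b : ℝ) - cx a) * (q.2 - cy a) - ((cy b : ℝ) - cy a) * (q.1 - cx a)

lemma orR_pos (a b c : Fin 12) : orR a b (pos c) = (orient a b c : ℝ) := by
  simp only [orR, pos, orient]
  push_cast
  ring

lemma orR_self (a b : Fin 12) {q : ℝ × ℝ} (h : q ∈ segment ℝ (pos a) (pos b)) :
    orR a b q = 0 := by
  obtain ⟨s, t, hs, ht, hst, rfl⟩ := h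
  have hs' : s = 1 - t := by linarith
  simp only [orR, pos, Prod.smul_mk, smul_eq_mul, Prod.mk_add_mk, hs']
  ring

/-- the orientation of a point of a segment is a convex combination -/
lemma orR_segment (a b c d : Fin 12) {q : ℝ × ℝ} (h : q ∈ segment ℝ (pos c) (pos d)) :
    ∃ s t : ℝ, 0 ≤ s ∧ 0 ≤ t ∧ s + t = 1 ∧ q = s • pos c + t • pos d ∧
      orR a b q = s * orient a b c + t * orient a b d := by
  obtain ⟨s, t, hs, ht, hst, rfl⟩ := h
  refine ⟨s, t, hs, ht, hst, rfl, ?_⟩
  have hs' : s = 1 - t := by linarith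
  simp only [orR, pos, Prod.smul_mk, smul_eq_mul, Prod.mk_add_mk, hs', orient]
  push_cast
  ring

/-- separated segments do not meet -/
lemma separated {a b c d : Fin 12}
    (h : (0 < orient a b c ∧ 0 < orient a b d) ∨ (orient a b c < 0 ∧ orient a b d < 0))
    {q : ℝ × ℝ} (h1 : q ∈ segment ℝ (pos a) (pos b)) (h2 : q ∈ segment ℝ (pos c) (pos d)) :
    False := by
  have e1 := orR_self a b h1
  obtain ⟨s, t, hs, ht, hst, -, e2⟩ := orR_segment a b c d h2
  rw [e1] at e2
  rcases h with ⟨hc, hd⟩ | ⟨hc, hd⟩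
  · have hc' : (0 : ℝ) < orient a b c := by exact_mod_cast hc
    have hd' : (0 : ℝ) < orient a b d := by exact_mod_cast hd
    rcases eq_or_lt_of_le hs with h0 | h0
    · have : t = 1 := by linarith
      subst this
      nlinarith
    · nlinarith [mul_pos h0 hc', mul_nonneg ht hd'.le]
  · have hc' : (orient a b c : ℝ) < 0 := by exact_mod_cast hc
    have hd' : (orient a b d : ℝ) < 0 := by exact_mod_cast hd
    rcases eq_or_lt_of_le hs with h0 | h0
    · have : t = 1 := by linarith
      subst this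
      nlinarith
    · nlinarith [mul_pos h0 (neg_pos.2 hc'), mul_nonneg ht (neg_pos.2 hd').le]

/-- two segments with a common end and different directions meet only there -/
lemma common_end {a b c : Fin 12} (h : orient a b c ≠ 0) {q : ℝ × ℝ}
    (h1 : q ∈ segment ℝ (pos a) (pos b)) (h2 : q ∈ segment ℝ (pos a) (pos c)) :
    q = pos a := by
  have e1 := orR_self a b h1
  obtain ⟨s, t, hs, ht, hst, hq, e2⟩ := orR_segment a b a c h2
  have h0 : orient a b a = 0 := by
    unfold orient
    ring
  rw [e1, h0] at e2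
  have h' : (orient a b c : ℝ) ≠ 0 := by exact_mod_cast h
  have ht0 : t = 0 := by
    simp only [Int.cast_zero, mul_zero, zero_add] at e2
    exact (mul_eq_zero.1 e2.symm).resolve_right h'
  have hs1 : s = 1 := by linarith
  rw [hq, ht0, hs1]
  simp

set_option maxRecDepth 100000 in
/-- no vertex lies on the line of an edge -/
lemma general : ∀ e ∈ arcs, ∀ w : Fin 12, w ≠ e.1 → w ≠ e.2 → orient e.1 e.2 w ≠ 0 := by
  decide

lemma orient_swap (a b c : Fin 12) : orient b a c = - orient a b c := by
  unfold orient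
  ring

set_option maxRecDepth 100000 in
/-- two arcs without common end are separated -/
lemma disjoint_arcs : ∀ e ∈ arcs, ∀ f ∈ arcs, e.1 ≠ f.1 → e.1 ≠ f.2 → e.2 ≠ f.1 → e.2 ≠ f.2 →
    ((0 < orient e.1 e.2 f.1 ∧ 0 < orient e.1 e.2 f.2) ∨
      (orient e.1 e.2 f.1 < 0 ∧ orient e.1 e.2 f.2 < 0)) ∨
    ((0 < orient f.1 f.2 e.1 ∧ 0 < orient f.1 f.2 e.2) ∨
      (orient f.1 f.2 e.1 < 0 ∧ orient f.1 f.2 e.2 < 0)) := by
  decide

lemma adj_cases {u v : Fin 12} (h : (underlying D).Adj u v) :
    ((u, v) ∈ arcs ∨ (v, u) ∈ arcs) ∧ u ≠ v := by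
  rw [underlying, SimpleGraph.fromRel_adj] at h
  exact ⟨h.2, h.1⟩

lemma general' {u v w : Fin 12} (h : (underlying D).Adj u v) (hu : w ≠ u) (hv : w ≠ v) :
    orient u v w ≠ 0 := by
  obtain ⟨h | h, -⟩ := adj_cases h
  · exact general (u, v) h w hu hv
  · have := general (v, u) h w hv hu
    rw [orient_swap] at this
    simpa using this

lemma pos_injective : Function.Injective pos := by
  intro u v h
  have h1 : (cx u : ℝ) = cx v := congrArg Prod.fst h
  have h2 : (cy u : ℝ) = cy v := congrArg Prod.snd h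
  have h1' : cx u = cx v := by exact_mod_cast h1
  have h2' : cy u = cy v := by exact_mod_cast h2
  revert h1' h2' 
  clear h1 h2 h
  revert u v
  decide

lemma disjoint_edges {u v x y : Fin 12} (h : (underlying D).Adj u v)
    (h' : (underlying D).Adj x y) (h1 : u ≠ x) (h2 : u ≠ y) (h3 : v ≠ x) (h4 : v ≠ y)
    {q : ℝ × ℝ} (q1 : q ∈ segment ℝ (pos u) (pos v)) (q2 : q ∈ segment ℝ (pos x) (pos y)) :
    False := by
  have key : ∀ a b c d : Fin 12, (a, b) ∈ arcs → (c, d) ∈ arcs → a ≠ c → a ≠ d → b ≠ c →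
      b ≠ d → q ∈ segment ℝ (pos a) (pos b) → q ∈ segment ℝ (pos c) (pos d) → False := by
    intro a b c d ha hc n1 n2 n3 n4 s1 s2
    rcases disjoint_arcs (a, b) ha (c, d) hc n1 n2 n3 n4 with hs | hs
    · exact separated hs s1 s2
    · exact separated hs s2 s1
  have q1' : q ∈ segment ℝ (pos v) (pos u) := by rwa [segment_symm]
  have q2' : q ∈ segment ℝ (pos y) (pos x) := by rwa [segment_symm]
  obtain ⟨ha | ha, -⟩ := adj_cases h <;> obtain ⟨hb | hb, -⟩ := adj_cases h'
  · exact key u v x y ha hb h1 h2 h3 h4 q1 q2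
  · exact key u v y x ha hb h2 h1 h4 h3 q1 q2'
  · exact key v u x y ha hb h3 h4 h1 h2 q1' q2
  · exact key v u y x ha hb h4 h3 h2 h1 q1' q2'

lemma planar : HasStraightLineDrawing (underlying D) := by
  refine ⟨pos, pos_injective, ?_, ?_⟩
  · intro u v w h hw
    by_contra hcon
    push Not at hcon
    have h1 := orR_self u v hw
    rw [orR_pos] at h1
    exact general' h hcon.1 hcon.2 (by exact_mod_cast h1)
  · intro u v x y h h' hne q q1 q2
    have huv := (adj_cases h).2
    have hxy := (adj_cases h').2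
    have q1' : q ∈ segment ℝ (pos v) (pos u) := by rwa [segment_symm]
    have q2' : q ∈ segment ℝ (pos y) (pos x) := by rwa [segment_symm]
    by_cases e1 : u = x
    · subst e1
      have hvy : y ≠ v := by
        rintro rfl
        exact hne rfl
      exact ⟨u, Or.inl rfl, Or.inl rfl, common_end (general' h hxy.symm hvy) q1 q2⟩
    by_cases e2 : u = y
    · subst e2
      have hvx : x ≠ v := by
        rintro rfl
        exact hne Sym2.eq_swap
      exact ⟨u, Or.inl rfl, Or.inr rfl, common_end (general' h hxy hvx) q1 q2'⟩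
    by_cases e3 : v = x
    · subst e3
      have huy : y ≠ u := fun e => e2 e.symm
      exact ⟨v, Or.inr rfl, Or.inl rfl, common_end (general' h.symm hxy.symm huy) q1' q2⟩
    by_cases e4 : v = y
    · subst e4
      have hux : x ≠ u := fun e => e1 e.symm
      exact ⟨v, Or.inr rfl, Or.inr rfl, common_end (general' h.symm hxy hux) q1' q2'⟩
    exact (disjoint_edges h h' e1 e2 e3 e4 q1 q2).elim

/-! ## The digirth -/

lemma no_short : ∀ a b : Fin 12, D a b → ¬ D b a ∧ a ≠ b ∧ ∀ c : Fin 12, D b c → ¬ D c a ∧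
    ∀ d : Fin 12, D c d → ¬ D d a := by
  decide

/-- a directed cycle of length five -/
def five : ZMod 5 → Fin 12 := ![0, 7, 3, 1, 8]

lemma digirth : HasDigirth D 5 := by
  constructor
  · refine ⟨by norm_num, five, ?_, ?_⟩
    · decide
    · decide
  · rintro l ⟨hl, c, -, hc⟩
    by_contra hlt
    push Not at hlt
    interval_cases l
    · have h0 := hc 0
      have e : (0 : ZMod 1) + 1 = 0 := by decide
      rw [e] at h0
      exact (no_short _ _ h0).2.1 rfl
    · have h0 := hc 0
      have h1 := hc 1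
      have e0 : (0 : ZMod 2) + 1 = 1 := by decide
      have e1 : (1 : ZMod 2) + 1 = 0 := by decide
      rw [e0] at h0
      rw [e1] at h1
      exact (no_short _ _ h0).1 h1
    · have h0 := hc 0
      have h1 := hc 1
      have h2 := hc 2
      have e0 : (0 : ZMod 3) + 1 = 1 := by decide
      have e1 : (1 : ZMod 3) + 1 = 2 := by decide
      have e2 : (2 : ZMod 3) + 1 = 0 := by decide
      rw [e0] at h0
      rw [e1] at h1
      rw [e2] at h2
      exact ((no_short _ _ h0).2.2 _ h1).1 h2
    · have h0 := hc 0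
      have h1 := hc 1
      have h2 := hc 2
      have h3 := hc 3
      have e0 : (0 : ZMod 4) + 1 = 1 := by decide
      have e1 : (1 : ZMod 4) + 1 = 2 := by decide
      have e2 : (2 : ZMod 4) + 1 = 3 := by decide
      have e3 : (3 : ZMod 4) + 1 = 0 := by decide
      rw [e0] at h0
      rw [e1] at h1
      rw [e2] at h2
      rw [e3] at h3
      exact ((no_short _ _ h0).2.2 _ h1).2 _ h2 h3

/-! ## Feedback vertex sets -/

/-- a feedback vertex set meets every directed cycle of length five -/
lemma meets {S : Finset (Fin 12)} (hS : IsFeedbackVertexSet D S) {a b c d e : Fin 12}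
    (h1 : D a b) (h2 : D b c) (h3 : D c d) (h4 : D d e) (h5 : D e a) :
    a ∈ S ∨ b ∈ S ∨ c ∈ S ∨ d ∈ S ∨ e ∈ S := by
  by_contra hcon
  push Not at hcon
  obtain ⟨ha, hb, hc, hd, he⟩ := hcon
  exact hS a (((((Relation.TransGen.single ⟨ha, hb, h1⟩).tail ⟨hb, hc, h2⟩).tail
    ⟨hc, hd, h3⟩).tail ⟨hd, he, h4⟩).tail ⟨he, ha, h5⟩)

/-- five directed cycles of length five -/
def cyc : Fin 5 → Finset (Fin 12) :=
  ![{0, 7, 3, 1, 8}, {0, 9, 2, 1, 8}, {2, 6, 5, 7, 3}, {2, 6, 11, 10, 4}, {4, 9, 5, 11, 10}]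

lemma avoid : ∀ a b : Fin 12, ∃ i : Fin 5, a ∉ cyc i ∧ b ∉ cyc i := by
  decide

lemma hits {S : Finset (Fin 12)} (hS : IsFeedbackVertexSet D S) (i : Fin 5) :
    ∃ v ∈ cyc i, v ∈ S := by
  have h0 := meets hS (a := 0) (b := 7) (c := 3) (d := 1) (e := 8) (by decide) (by decide)
    (by decide) (by decide) (by decide)
  have h1 := meets hS (a := 0) (b := 9) (c := 2) (d := 1) (e := 8) (by decide) (by decide)
    (by decide) (by decide) (by decide)
  have h2 := meets hS (a := 2) (b := 6) (c := 5) (d := 7) (e := 3) (by decide) (by decide)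
    (by decide) (by decide) (by decide)
  have h3 := meets hS (a := 2) (b := 6) (c := 11) (d := 10) (e := 4) (by decide) (by decide)
    (by decide) (by decide) (by decide)
  have h4 := meets hS (a := 4) (b := 9) (c := 5) (d := 11) (e := 10) (by decide) (by decide)
    (by decide) (by decide) (by decide)
  fin_cases i
  · rcases h0 with h | h | h | h | h <;> exact ⟨_, by decide, h⟩
  · rcases h1 with h | h | h | h | h <;> exact ⟨_, by decide, h⟩
  · rcases h2 with h | h | h | h | h <;> exact ⟨_, by decide, h⟩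
  · rcases h3 with h | h | h | h | h <;> exact ⟨_, by decide, h⟩
  · rcases h4 with h | h | h | h | h <;> exact ⟨_, by decide, h⟩

lemma three_le {S : Finset (Fin 12)} (hS : IsFeedbackVertexSet D S) : 3 ≤ S.card := by
  by_contra hlt
  push Not at hlt
  have key : ∃ a b : Fin 12, ∀ v ∈ S, v = a ∨ v = b := by
    have hle : S.card ≤ 2 := by omega
    rcases Nat.lt_or_ge S.card 1 with h | h
    · have : S = ∅ := Finset.card_eq_zero.1 (by omega)
      subst this
      exact ⟨0, 0, by simp⟩
    rcases Nat.lt_or_ge S.card 2 with h' | h'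
    · obtain ⟨a, rfl⟩ := Finset.card_eq_one.1 (by omega : S.card = 1)
      exact ⟨a, a, by simp⟩
    · obtain ⟨a, b, -, rfl⟩ := Finset.card_eq_two.1 (by omega : S.card = 2)
      exact ⟨a, b, by simp⟩
  obtain ⟨a, b, hab⟩ := key
  obtain ⟨i, hi⟩ := avoid a b
  obtain ⟨v, hv, hvS⟩ := hits hS i
  rcases hab v hvS with rfl | rfl
  · exact hi.1 hv
  · exact hi.2 hv

/-- a rank function increasing along the arcs outside `{0, 2, 4}` -/
def rank : Fin 12 → ℕ := ![0, 4, 0, 3, 0, 1, 0, 2, 5, 0, 3, 2]

lemma rank_lt : ∀ a b : Fin 12, a ∉ ({0, 2, 4} : Finset (Fin 12)) →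
    b ∉ ({0, 2, 4} : Finset (Fin 12)) → D a b → rank a < rank b := by
  decide

lemma three : IsFeedbackVertexSet D {0, 2, 4} := by
  intro v h
  have key : ∀ a b, Relation.TransGen (fun a b => a ∉ ({0, 2, 4} : Finset (Fin 12)) ∧
      b ∉ ({0, 2, 4} : Finset (Fin 12)) ∧ D a b) a b → rank a < rank b := by
    intro a b hab
    induction hab with
    | single h => exact rank_lt _ _ h.1 h.2.1 h.2.2
    | tail _ h ih => exact ih.trans (rank_lt _ _ h.1 h.2.1 h.2.2)
  exact lt_irrefl _ (key v v h)

lemma fvs_eq : fvs D = 3 := by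
  refine IsLeast.csInf_eq ⟨⟨{0, 2, 4}, three, by decide⟩, ?_⟩
  rintro k ⟨S, hS, rfl⟩
  exact three_le hS

lemma numArcs_eq : numArcs D = 20 := by
  have e : {p : Fin 12 × Fin 12 // D p.1 p.2} ≃ {p : Fin 12 × Fin 12 // p ∈ arcs} :=
    Equiv.subtypeEquivRight (fun p => Iff.rfl)
  rw [numArcs, Nat.card_congr e, Nat.card_eq_fintype_card, Fintype.card_coe]
  decide

/-- The inequality `fvs(G) ≤ (2n + m) / (3g)` fails for some planar oriented graph `G` of digirth
`g = 5`, with `n = 12` vertices, `m = 20` arcs and `fvs(G) = 3`; in particular it is not true for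
all planar oriented graphs of digirth `g ≥ 4`. -/
theorem result :
    (∃ A : Fin 12 → Fin 12 → Prop, IsOriented A ∧ HasStraightLineDrawing (underlying A) ∧
      HasDigirth A 5 ∧ numArcs A = 20 ∧ fvs A = 3 ∧
      ¬ ((fvs A : ℝ) ≤ (2 * (12 : ℝ) + numArcs A) / (3 * (5 : ℝ)))) ∧
    ¬ (∀ g : ℕ, 4 ≤ g → ∀ n : ℕ, ∀ A : Fin n → Fin n → Prop, IsOriented A →
      HasStraightLineDrawing (underlying A) → HasDigirth A g →
      (fvs A : ℝ) ≤ (2 * (n : ℝ) + numArcs A) / (3 * (g : ℝ))) := by
  have hD : IsOriented D := ⟨by decide, by decide⟩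
  refine ⟨⟨D, hD, planar, digirth, numArcs_eq, fvs_eq, ?_⟩, fun h => ?_⟩
  · rw [numArcs_eq, fvs_eq]
    norm_num
  · have h5 := h 5 (by norm_num) 12 D hD planar digirth
    rw [numArcs_eq, fvs_eq] at h5
    norm_num at h5

end Pool.Agent.Results.MP_fa4488_co.DigirthFive
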